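import Mathlib
import Pool.Agent.Q65.TE5
import Pool.Agent.Y114.RM.All3

/-!
# The Tate conjecture at every prime `ℓ` from the balanced classes of the eigenvalues of one Frobenius

Let `M i` be finitely many pure motives (direct factors of the cohomology of smooth projective
varieties, cut out by correspondences, with a Tate twist) over a number field or a finitely generated
field `k` of characteristic zero, pure of weight `w i`, `V i` their `ℓ`-adic realizations for ONE prime
number `ℓ`, and `V` the direct sum.  Let `𝔤` be the Lie algebra, over `ℚ_ℓ`, of the motivic Galois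
group `G` of the sum of the `M i`: the group of the automorphisms which fix all algebraic classes on
the tensor constructions (if numerical and homological equivalence agree for them), or all motivated
classes (André), or all absolute Hodge classes.  The property `Motivic ρ 𝔤` (structure `IsMotivic`)
states the properties of `𝔤` which are used: it is a Lie algebra, it respects the direct sum, it is
reductive (trace form nondegenerate, completely reducible on `V`), it consists of all endomorphisms
which kill the tensors killed by `𝔤`, and these tensors (the algebraic, motivated, ... classes) are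
Tate tensors (fixed by a subgroup of finite index of the Galois group).  Nothing is assumed on the
irreducibility, the semisimplicity or the endomorphisms of the Galois representations, on Hodge numbers
or on polarizations.

The representations come from a profinite group `Γ` (the Galois group of `k` or the fundamental group
of a model `U` of `k`), and `s` is the homomorphism from the Galois group of a number field `F` to
`Γ` given by a closed point of the generic fibre of `U` (if `k = F` is a number field, `s` is the
identity).  Suppose:

(0) (as in `MP_8f1292_ag.MaximalFrobeniusTorus`) there are three primes `p ≠ ℓ`, unramified in `F`, such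
that the fibre at `s` has good reduction at the places above `p`, with pure Frobenius polynomials in
`ℚ[X]`, and at ONE place `v₀` above one of these primes `p₀` there are `r` multiplicatively independent
Frobenius eigenvalues, where the rank of `𝔤` is at most `r`; if there are several places above `p₀` they
are independent (`IndependentPlaces`; nothing is to be supposed if `F = ℚ`, or if there is only one
place above `p₀`).

(1) (`CentralCommutes`) The endomorphisms in the centre of the algebra of the Tate endomorphisms of `V i`
(the endomorphisms which commute with a subgroup of finite index of `Γ`) commute with the Galois group of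
`F`.  This is so if the Zariski closure of the image of the Galois group of `F` is connected; by a theorem
of Serre this does not depend on `ℓ`, and one can replace `F` by a finite extension.

(2) (`MotivicEndomorphisms`, `EigenvaluesOnParts`, `OneBalancedClass`) Let `b i` be an endomorphism of
`V i`, killed by a separable polynomial, which commutes with `Γ` and with `𝔤`: for instance `b i = 0`, or a
generator of a number field `E i` which acts on `M i` (motives with coefficients in `E i`).  Fix an
embedding `j` of `ℚ_ℓ` in `ℂ`, and let `M i β` be the multiset of the Frobenius eigenvalues (at `v₀`) on the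
eigenspace of `b i` in `V i ⊗ ℂ` for the complex number `β`: the roots of the conjugates of the Frobenius
polynomial of `M i` in `E i [X]`.  For a subgroup `Λ` of `ℂ^×` which contains all roots of unity, the class
of `a₀` in `M i β` is the multiset of the `a` in `M i β` with `a / a₀` in `Λ`; it is balanced if a power
of the square of its product is a power of `q ^ (w i)`, `q = N v₀`, as it would be for the complex absolute
value.  Suppose that, if `Λ` is such that all classes in all `M i β` are balanced, then each `M i β` is
contained in one class.

The condition (2) holds for example if no proper nonempty submultiset of a `M i β` is balanced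
(`oneBalancedClass_of_noBalancedPart`).  This is a condition on ONE Frobenius polynomial (over `E i`).  It
is true if for each `i` there are between the `m i` Frobenius eigenvalues of `M i` over `E i` (and `q`)
only the multiplicative relations generated by one relation, that the determinant is a power of `q` up
to a root of unity: for example for motives with coefficients in a CM field `E i` with a hermitian
form, such as the motives of rank `3` over `ℚ(√-d)` which are not selfdual (of van Geemen and Top), for
all ranks `m i` and all Hodge numbers, and for elliptic curves.  In these cases nothing is known on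
the irreducibility of the Galois representations for general `ℓ` and `m i`.

**Theorem.**  Then `V` is semisimple for all subgroups of finite index of `Γ`, and the Tate tensors are
exactly the tensors killed by `𝔤`: every tensor on `V` and its dual space (of any degree) which is fixed
by a subgroup of finite index of the Galois group is a combination of algebraic (motivated, ...)
classes.  So `Hom(N, N') ⊗ ℚ_ℓ → Hom_{G_k}(N_ℓ, N'_ℓ)` is surjective for all motives `N`, `N'` in the
tensor category generated by the `M i`, over `k` and over all finite extensions of `k`.  As there is no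
condition on the behaviour of `v₀` at `ℓ`, this holds for all `ℓ` outside of the residue characteristics
of (0) (and for all `ℓ` if there are two disjoint sets of places as in (0)).

The proof.  Let `L` be the Lie algebra of the endomorphisms which kill all Tate tensors and preserve
the subspaces stable under open subgroups.  By (0) and the results of the library `L` is reductive and
contains the torus `t` of the Frobenius element, which is a Cartan subalgebra of `𝔤`.  The projection
`P` of `V ⊗ ℂ` on the sum of the weight spaces for a class of weights of `t` modulo the group generated by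
the roots of `L` is in the centre of the commutant of `L`, and it is a polynomial in the Frobenius element
with coefficients in a finite extension `E'` of `ℚ_ℓ`.  By (1) its blocks commute with the Galois
group of `F`, so the determinant of the action on the image of the block in the part of `V i` for
`β` is a character with values in `E'^×`, with algebraic Frobenius values.  The `ℓ`-adic six
exponentials theorem (for `E'`) and the product formula show that its transfer to `ℚ` is of finite order
after normalization (division by the determinant of `V i`), and the independence of the places above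
`p₀` gives the same for its value at `v₀`: the classes are balanced.  By (2) the projections
`P` are scalars on the parts, they commute with `𝔤`, so all roots of `𝔤` are sums of roots of `L`,
and `L = 𝔤` follows as in `MP_b8862a_ag.AnyGroupDensityOne`.
-/

set_option autoImplicit false

namespace Pool.Agent.Results.MP_3703a7_ag.BalancedClasses

open NumberField IsDedekindDomain Polynomial Module Pool.Agent.Y114.TF Pool.Agent.Y114.GF
  Pool.Agent.Y114.MU Pool.Agent.Y114.RM Pool.Agent.H204R3.GP
open scoped TensorProduct

section general

variable {k : Type} [Field k] {V : Type} [AddCommGroup V] [Module k V] {Γ : Type} [Group Γ]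
  (ρ : Representation k Γ V)

/-- `z` is a Tate endomorphism: it commutes with a subgroup of finite index. -/
def IsTateEnd (z : End k V) : Prop :=
  ∃ Δ : Subgroup Γ, Δ.FiniteIndex ∧ ∀ γ ∈ Δ, z * ρ γ = ρ γ * z

/-- `z` is in the centre of the algebra of the Tate endomorphisms. -/
def IsCentralTateEnd (z : End k V) : Prop :=
  IsTateEnd ρ z ∧ ∀ y, IsTateEnd ρ y → z * y = y * z

/-- `b` commutes with `Γ` and with `𝔥`, and it is killed by a separable polynomial. -/
structure IsMotivicEnd (𝔥 : Submodule k (End k V)) (b : End k V) : Prop where
  galois : ∀ γ, b * ρ γ = ρ γ * b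
  motivic : ∀ X ∈ 𝔥, b * X = X * b
  separable : ∃ f : k[X], f.Separable ∧ aeval b f = 0

/-- `M` is the multiset of the eigenvalues of `g` on the eigenspace of `b` in `V ⊗ ℂ` for `β`. -/
def EigenvaluesOn (j : k →+* ℂ) (g b : End k V) (β : ℂ) (M : Multiset ℂ) : Prop :=
  letI := j.toAlgebra
  ∀ a, M.count a =
    finrank ℂ ↥(Module.End.maxGenEigenspace (g.baseChange ℂ) a ⊓
      Module.End.eigenspace (b.baseChange ℂ) β)

end general

section classes

/-- the part of `M` in the class of `a₀` modulo `Λ` -/
noncomputable def classIn (Λ : Subgroup ℂˣ) (a₀ : ℂˣ) (M : Multiset ℂ) : Multiset ℂ :=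
  open Classical in M.filter fun a => ∃ u ∈ Λ, a = (u : ℂ) * a₀

/-- `R` is balanced: a power of the square of its product is a power of `c`, with the exponent given
by the absolute values if these are the square roots of `c`. -/
def IsBalanced (c : ℝ) (R : Multiset ℂ) : Prop :=
  ∃ k : ℕ, 0 < k ∧ R.prod ^ (2 * k) = (c : ℂ) ^ (k * Multiset.card R)

/-- If all classes modulo `Λ` are balanced, then each `M i β` is contained in one class. -/
def OneBalancedClass {ι : Type} (c : ι → ℝ) (M : ι → ℂ → Multiset ℂ) : Prop :=
  ∀ Λ : Subgroup ℂˣ, (∀ ζ : ℂˣ, IsOfFinOrder ζ → ζ ∈ Λ) →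
    (∀ i β a₀, IsBalanced (c i) (classIn Λ a₀ (M i β))) →
    ∀ i β, ∀ a ∈ M i β, ∀ b ∈ M i β, ∃ u ∈ Λ, a = (u : ℂ) * b

/-- No proper nonempty part of a `M i β` is balanced. -/
def NoBalancedPart {ι : Type} (c : ι → ℝ) (M : ι → ℂ → Multiset ℂ) : Prop :=
  ∀ i β, ∀ R ≤ M i β, R ≠ 0 → IsBalanced (c i) R → R = M i β

theorem oneBalancedClass_of_noBalancedPart {ι : Type} {c : ι → ℝ} {M : ι → ℂ → Multiset ℂ}
    (h0 : ∀ i β, (0 : ℂ) ∉ M i β) (h : NoBalancedPart c M) : OneBalancedClass c M := by
  classical
  intro Λ hΛ hbal i β a ha b hb
  have hb0 : b ≠ 0 := fun h1 => h0 i β (h1 ▸ hb)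
  have h1 := h i β (classIn Λ (Units.mk0 b hb0) (M i β)) (Multiset.filter_le _ _) (by
    intro h2
    have h3 : b ∈ classIn Λ (Units.mk0 b hb0) (M i β) := by
      rw [classIn, Multiset.mem_filter]
      exact ⟨hb, 1, Λ.one_mem, by rw [Units.val_one, one_mul, Units.val_mk0]⟩
    rw [h2] at h3
    exact Multiset.notMem_zero _ h3) (hbal i β _)
  have h2 : a ∈ classIn Λ (Units.mk0 b hb0) (M i β) := by
    rw [h1]
    exact ha
  rw [classIn, Multiset.mem_filter] at h2
  exact h2.2

end classes

section defs

variable {Γ : Type} [Group Γ] {ι : Type} {n : ι → ℕ} {ℓ : ℕ} [Fact ℓ.Prime]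
  (ρ : Reps Γ n ℓ) (𝔤 : EndSpace n ℓ)

/-- families of endomorphisms of the summands -/
def EndFamily (n : ι → ℕ) (ℓ : ℕ) [Fact ℓ.Prime] : Type :=
  ∀ i, End ℚ_[ℓ] (Fin (n i) → ℚ_[ℓ])

/-- (1) The central Tate endomorphisms of the summands commute with the image of `s`. -/
def CentralCommutes {Δ : Type} [Group Δ] (s : Δ →* Γ) : Prop :=
  ∀ i z, IsCentralTateEnd (ρ i) z → ∀ σ, z * ρ i (s σ) = ρ i (s σ) * z

/-- the `b i` are endomorphisms of the motives -/
def MotivicEndomorphisms [DecidableEq ι] (b : EndFamily n ℓ) : Prop :=
  ∀ i, IsMotivicEnd (ρ i) (imageIn 𝔤 i) (b i)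

/-- `M i β` is the multiset of the eigenvalues of `γ` on the part of the `i`-th summand on which `b i`
acts as `β`. -/
def EigenvaluesOnParts (b : EndFamily n ℓ) (j : ℚ_[ℓ] →+* ℂ) (γ : Γ) (M : ι → ℂ → Multiset ℂ) :
    Prop :=
  ∀ i β, EigenvaluesOn j (ρ i γ) (b i) β (M i β)

/-- `γ` is (the image by `s` of) a geometric Frobenius element at `v`. -/
def IsGeometricFrobenius {F : Type} [Field F] [NumberField F]
    (s : Gal(AlgebraicClosure F/F) →* Γ) (v : HeightOneSpectrum (𝓞 F)) (γ : Γ) : Prop :=
  ∃ Q σ, PrimeOver Q v ∧ IsFrobAt Q (q v) σ ∧ γ = s σ⁻¹

end defs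

theorem result {F : Type} [Field F] [NumberField F] {Γ : Type} [Group Γ] [TopologicalSpace Γ]
    [IsTopologicalGroup Γ] [CompactSpace Γ] {ι : Type} [Fintype ι] [DecidableEq ι] {n : ι → ℕ}
    {ℓ : ℕ} [Fact ℓ.Prime]
    -- the `ℓ`-adic realizations, and the specialization
    (ρ : Reps Γ n ℓ) (hρ : Conts ρ) (s : Gal(AlgebraicClosure F/F) →* Γ) (hs : Continuous s)
    (w : ι → ℤ)
    -- the Lie algebra of the motivic Galois group
    (𝔤 : EndSpace n ℓ) (h𝔤 : Motivic ρ 𝔤)
    -- (0) three primes of good reduction, and one Frobenius torus of maximal rank
    (P : HeightOneSpectrum (𝓞 F) → ι → ℚ[X]) (T : Set ℕ) (hT3 : 3 ≤ T.encard)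
    (hT : ∀ p ∈ T, p.Prime ∧ p ≠ ℓ ∧ UnramifiedIn F p)
    (hP : ∀ p ∈ T, ∀ v, Above v p → ∀ i, GoodReduction (restrictTo ρ s) i (w i) v (P v i))
    (p₀ : ℕ) (hp₀ : p₀ ∈ T) (hind : IndependentPlaces P p₀)
    (v₀ : HeightOneSpectrum (𝓞 F)) (hv₀ : Above v₀ p₀)
    (r : ℕ) (hr : IndepRoots r (Set.range (P v₀))) (hrank : RankLE 𝔤 r)
    -- (1) the Galois group of `F` acts trivially on the central Tate endomorphisms
    (h1 : CentralCommutes ρ s)
    -- (2) endomorphisms of the motives, the eigenvalues on the parts, and the numerical condition
    (b : EndFamily n ℓ) (hb : MotivicEndomorphisms ρ 𝔤 b) (j : ℚ_[ℓ] →+* ℂ)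
    (M : ι → ℂ → Multiset ℂ)
    (hM : ∀ γ, IsGeometricFrobenius s v₀ γ → EigenvaluesOnParts ρ b j γ M)
    (h2 : OneBalancedClass (fun i => (q v₀ : ℝ) ^ w i) M) :
    Semisimple ρ ∧ TateTensorsOf ρ 𝔤 := by
  classical
  refine Pool.Agent.Q65.KL.main_bal inputs inputs2 ρ hρ 𝔤 h𝔤 s hs P T hT3 hT
    (fun p hp v hv => goodPlace_of (restrictTo ρ s) (hP p hp v hv)) hp₀ hind hv₀ r
    (independentRoots_range hr) hrank (fun i z hz hz' => h1 i z ⟨hz, hz'⟩) b
    (fun i => (hb i).galois) (fun i X hX => (hb i).motivic _ (Submodule.mem_map_of_mem hX)) j
    (fun i => ?_) ?_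
  · let _ : Algebra ℚ_[ℓ] ℂ := j.toAlgebra
    obtain ⟨f, hf, hbf⟩ := (hb i).separable
    show ⨆ β, Module.End.eigenspace (LinearMap.baseChange ℂ (b i)) β = ⊤
    have h3 : aeval (LinearMap.baseChange ℂ (b i)) (f.map (algebraMap ℚ_[ℓ] ℂ)) = 0 := by
      have h4 : aeval (LinearMap.baseChange ℂ (b i)) (f.map (algebraMap ℚ_[ℓ] ℂ)) =
          (aeval (b i) f).baseChange ℂ := by
        rw [aeval_map_algebraMap]
        exact aeval_algHom_apply (Module.End.baseChangeHom ℚ_[ℓ] ℂ (Fin (n i) → ℚ_[ℓ])) (b i) f
      rw [h4, hbf, LinearMap.baseChange_zero]
    have h5 : Module.End.IsSemisimple (LinearMap.baseChange ℂ (b i)) :=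
      Module.End.isSemisimple_of_squarefree_aeval_eq_zero (hf.map.squarefree) h3
    rw [← Module.End.iSup_maxGenEigenspace_eq_top (LinearMap.baseChange ℂ (b i))]
    exact iSup_congr fun β => (h5.isFinitelySemisimple.maxGenEigenspace_eq_eigenspace β).symm
  · intro Q hQ σ hσ Λ hΛ hbal i β a b' ha hb'
    have h3 := hM (s σ⁻¹) ⟨Q, σ, hQ, hσ, rfl⟩
    have hcount : ∀ i β a, (M i β).count a =
        Pool.Agent.Q65.KL.JointJ j (ρ i (s σ⁻¹)) (b i) a β := fun i β a => h3 i β a
    obtain ⟨u, hu, hu'⟩ := h2 Λ hΛ (by
      intro i β a₀
      obtain ⟨R, h4, h5, h6, h7⟩ := hbal i β a₀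
      have h8 : classIn Λ a₀ (M i β) = R := by
        ext x
        rw [classIn, Multiset.count_filter]
        by_cases hx0 : x = 0
        · rw [if_neg, hx0, Multiset.count_eq_zero.2 h6]
          rintro ⟨u, -, hu⟩
          rw [hx0] at hu
          exact mul_ne_zero u.ne_zero a₀.ne_zero hu.symm
        · by_cases hx : (Units.mk0 x hx0) / a₀ ∈ Λ
          · rw [if_pos ⟨Units.mk0 x hx0 / a₀, hx, by
              rw [← Units.val_mul, div_mul_cancel, Units.val_mk0]⟩, hcount]
            exact (h4 (Units.mk0 x hx0) hx).symm
          · rw [if_neg]
            · exact (Multiset.count_eq_zero.2 (h5 (Units.mk0 x hx0) hx)).symm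
            · rintro ⟨u, hu, hu'⟩
              apply hx
              have h9 : Units.mk0 x hx0 / a₀ = u := by
                rw [div_eq_iff_eq_mul]
                exact Units.ext hu'
              rw [h9]
              exact hu
      rw [h8]
      exact h7) i β a (by
        rw [← Multiset.count_ne_zero, hcount]
        exact ha) b' (by
        rw [← Multiset.count_ne_zero, hcount]
        exact hb')
    have h9 : a / b' = u := by
      rw [div_eq_iff_eq_mul]
      exact Units.ext hu'
    rw [h9]
    exact hu

end Pool.Agent.Results.MP_3703a7_ag.BalancedClasses
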