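import Mathlib
import Pool.Agent.Q306.TP.Forces
import Pool.Agent.Q306.TP.Degree
import Pool.Agent.Y1.TS.Main

/-!
# The Tate conjecture for homomorphisms from the motives of abelian varieties to tensor products of
arbitrary motives of small rank

Let `F` be a number field, `A` an abelian variety over `F` and `N` a pure motive over `F`. Let `γ` be
the Frobenius element of the Galois group `Γ` of `F` at **one** place of good reduction, the residue
field having `p ^ a` elements, for which the characteristic polynomial on the Tate module
`V = V_ℓ (A)` is the product of the minimal polynomials of Weil numbers `π i` which generate CM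
fields `K i` and whose angle rank is maximal (`MaximalAngleRank`: no multiplicative relations between
the conjugates of the `π i` and `p`, except for the trivial ones). Let `M` be the `ℓ`-adic realization
of `N` (or any other representation of `Γ`) such that the eigenvalues `α` of `γ` on `M` are roots of a
polynomial `f ≠ 0` with rational coefficients, and

* each root `α` of `f` is a **product of algebraic numbers `α_1, ..., α_t`** (any number of them), each
  of which is unrelated to all fields `K i` (`UnrelatedTo`): a function `n` on the complex embeddings of
  `K i` with `n (conj φ) = - n φ` which is invariant under all automorphisms of `ℂ` that fix a power of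
  `α_l` is zero.

By the third part of the theorem a number `α_l` is unrelated to `K i` if its degree over `ℚ` is less
than the degree of `K i` and the functions `n` as above, on the complex embeddings of `K i`, are an
irreducible representation (`OddIrreducible`; this is true for generic CM fields, and for all CM
fields of degree twice an odd prime number that do not contain an imaginary quadratic field). So, for
such fields, the condition holds for **all direct sums of tensor products `N_1 ⊗ ... ⊗ N_t` of arbitrary
motives (of any types and weights, any number of them) whose ranks are less than the degrees of the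
fields `K i`**, for instance for the motives of all products of varieties with Betti numbers less than
`2 dim A` if `A` is as above with one generic field `K`.

**Theorem** (`ClassesSplit`). The homomorphisms `Λ^j (V ^ r) → M` that commute with an open subgroup
of `Γ` are zero for odd `j`, and linear combinations of products of `m` Tate classes of degree two
on `A ^ r` and of Tate vectors in `M (-m)` (homomorphisms of the realization of the Tate motive
`ℚ (m)` to `M`) if `j = 2 m`. The Tate classes of degree two are classes of divisors (Faltings). So
for all motives `h_j (A ^ r)` (homology of degree `j`), `j = 2 m`, and `N` as above: if the Tate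
conjecture, that is the surjectivity of `Hom(-, -) ⊗ ℚ_ℓ → Hom_{Γ}(-, -)`, is true for the pair
`(ℚ (m), N)` over all finite extensions of `F`, then it is true for the pair `(h_j (A ^ r), N)` over
all finite extensions; and for odd `j` it is true for `(h_j (A ^ r), N)`. The hypotheses on `V`
(`IsPolarised`) are the Weil pairing and the semisimplicity (Faltings).

The first part of the theorem shows that almost all slope types of all CM fields have this
property. Let `K i` be CM fields of degree `2 g i`, pairwise independent (for `i ≠ k` and all
embeddings some automorphism of `ℂ` is the identity on `K i` and the complex conjugation on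
`K k`; no condition for one field), and let `M i` be a function with nonzero integral values
dividing `n i` on the embeddings of `K i`, invariant under complex conjugation. A family of CM types
`Φ i` and the `M i` prescribe the slopes `(a ± κ M) / 2` of Weil numbers in `K i` (the ordinary case
is `M = 1`, `κ = a`). Among the `2 ^ (∑ i, g i)` families of CM types at most
`2 ^ (∑ i, g i) * ∑ i, C * (n i) ^ 2 * rate (K i) (g i) (q i)` are exceptional, that is do not have
the property `SplitsForProducts` for all Weil numbers with these slopes; `C` is an absolute
constant, `q i` any prime factor of `g i` (or `1`), and `rate K g q` is `(1 + log (2 g)) ^ 16` times the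
smaller of `W (K) / √g` and `√g / q`, where `W (K)` is defined by the CM subfields of `K` (it is
bounded for bounded numbers of CM subfields if the nonabelian normal ones have bounded degree). The
counting is that of the starting files (`AllCMTypesTimesSmooth`, MP_2a05c8_ag, where the theorem is
proved for numbers `α` that are themselves unrelated to the fields `K i`). New here are products of
unrelated numbers: products of unrelated numbers are in general related to `K i` in the sense of
that definition (the degree of a product of `t` numbers of degree `d` can be `d ^ t`).

Idea of the proof: let `α_1 ... α_t = ∏ π_x ^ (cnt x)` (up to roots of unity and powers of `p`), where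
`π_x = x (π i)` for the embeddings `x` of the fields `K i` in a Galois closure with group `G`, and let
`n x = cnt x - cnt (conj x)`. Fix `x` and apply `∏ σ, σ (-) ^ (n (σ⁻¹ x))`. As `α_l` is unrelated to
the fields, the sums of the exponents over the cosets of the stabilizer of a power of `α_l` vanish, so
that `α_l` is mapped to a root of unity. The resulting relation between the `π_y` is trivial, and its
value at `x` is `∑ σ, n (σ⁻¹ x) ^ 2`. So `n = 0`. Together with the semisimplicity this gives the
theorem, as in the starting files.
-/

set_option autoImplicit false

namespace Pool.Agent.Results.MP_3703a7_ag.SmallRankTensorMotives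

open NumberField Module IntermediateField Pool.Agent.H204R3.CM Pool.Agent.H977R3.CM
  Pool.Agent.TH170 Pool.Agent.Y1.KN Pool.Agent.Y1.CT Pool.Agent.Y1.TS Pool.Agent.Y137.MV
  Pool.Agent.Q306.TP

/-- The exceptional families of CM types: those for which the splitting of the homomorphisms to
representations with eigenvalues that are products of unrelated numbers (`SplitsForProducts`) fails
for some Weil numbers with the slopes prescribed by the types `Φ i` and the weights `M i`. -/
def exceptionalFamilies {p : ℕ} [Fact p.Prime] (ν : PadicAlgCl p ≃+* ℂ) {I : Type} [Fintype I]
    (K : I → Type) [∀ i, Field (K i)] [∀ i, NumberField (K i)] [∀ i, IsCMField (K i)]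
    (M : ∀ i, (K i →+* ℂ) → ℤ) : Set (∀ i, Set (K i →+* ℂ)) :=
  {Φ | (∀ i, IsCMType (Φ i)) ∧
    ¬ ForAllWeil ν K M (fun a π => SplitsForProducts (p := p) a K π) Φ}

/-- **The homomorphisms from the motives of abelian varieties with one Frobenius element of maximal
angle rank to motives with Frobenius eigenvalues that are products of numbers unrelated to the CM
fields come from divisors and Tate vectors.** -/
theorem result :
    -- almost all slope types of all CM fields
    (∃ C : ℝ, 0 ≤ C ∧ ∀ (p : ℕ) [Fact p.Prime] (ν : PadicAlgCl p ≃+* ℂ) (I : Type) [Fintype I]
      (K : I → Type) [∀ i, Field (K i)] [∀ i, NumberField (K i)] [∀ i, IsCMField (K i)]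
      (M : ∀ i, (K i →+* ℂ) → ℤ) (n g q : I → ℕ), PairwiseIndep K →
      (∀ i φ, M i (ComplexEmbedding.conjugate φ) = M i φ) → (∀ i, n i ≠ 0) →
      (∀ i φ, M i φ ∣ (n i : ℤ)) → (∀ i, finrank ℚ (K i) = 2 * g i) →
      (∀ i, q i ∣ g i ∧ (q i = 1 ∨ (q i).Prime)) →
      ((exceptionalFamilies ν K M).ncard : ℝ) ≤
        2 ^ (∑ i, g i) * ∑ i, C * (n i : ℝ) ^ 2 * rate (K i) (g i) (q i)) ∧
    -- all Weil numbers of maximal angle rank
    (∀ (p : ℕ) [Fact p.Prime] (a : ℕ) (I : Type) [Fintype I] (K : I → Type) [∀ i, Field (K i)]
      [∀ i, NumberField (K i)] [∀ i, IsCMField (K i)] (π : ∀ i, K i), (∀ i, ℚ⟮π i⟯ = ⊤) →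
      (∀ i, π i * IsCMField.complexConj (K i) (π i) = (p : K i) ^ a) →
      MaximalAngleRank (p ^ a) π → SplitsForProducts (p := p) a K π) ∧
    -- numbers of small degree are unrelated
    (∀ (K : Type) [Field K] [NumberField K] [IsCMField K], OddIrreducible K → ∀ α : ℂ,
      IsAlgebraic ℚ α → (minpoly ℚ α).natDegree < finrank ℚ K → UnrelatedTo K α) := by
  obtain ⟨C, hC0, hC⟩ := ncard_of_angle
  refine ⟨⟨C, hC0, ?_⟩, ?_, ?_⟩
  · intro p _ ν I _ K _ _ _ M n g q hind hM hn hMn hg hq
    exact hC p ν I K M n g q hind hM hn hMn hg hq _ fun a π ha hgen hw hang =>
      split_of_products hgen hw hang
  · intro p _ a I _ K _ _ _ π hgen hw hang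
    exact split_of_products hgen hw hang
  · intro K _ _ _ hK α hα hdeg
    exact unrelated_of_degree hK hα hdeg

end Pool.Agent.Results.MP_3703a7_ag.SmallRankTensorMotives
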