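import Mathlib
import Pool.Agent.Q65.MAIN2
import Pool.Agent.Y114.RM.All3

/-!
# The Tate conjecture at a prime `ℓ`, for motives of any type, from a Frobenius element which splits
# over `ℚ_ℓ` and a Frobenius element whose eigenvalues are conjugate over `ℚ_ℓ`

Let `M i` be finitely many pure motives (direct factors of the cohomology of smooth projective
varieties, cut out by correspondences, with a Tate twist) over a number field or a finitely generated
field `k` of characteristic zero, pure of weight `w i`, `V` the direct sum of their `ℓ`-adic
realizations, for ONE prime number `ℓ`.  Let `𝔤` be the Lie algebra, over `ℚ_ℓ`, of the motivic Galois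
group `G` of `M`: the group of the automorphisms which fix all algebraic classes on the tensor
constructions of `M` (if numerical and homological equivalence agree for `M`), or all motivated classes
(André), or all absolute Hodge classes.  The property `Motivic ρ 𝔤` (structure `IsMotivic`) states the
properties of `𝔤` which are used: it is a Lie algebra, it respects the direct sum, it is reductive
(trace form nondegenerate, completely reducible on `V`), it consists of all endomorphisms which kill
the tensors killed by `𝔤`, and these tensors (the algebraic, motivated, ... classes) are Tate tensors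
(fixed by a subgroup of finite index of the Galois group).  The group can be of any type, for example
exceptional, and the weights of `V` can have multiplicities (for example `V` can be the adjoint
representation of `E₈` or the representations of `F₄` or of spin groups): nothing is assumed on
simplicity of Frobenius eigenvalues, on Hodge numbers, on polarizations or on the semisimplicity of
the Galois action.

The representations come from a profinite group `Γ` (the Galois group of `k` or the fundamental group
of a model `U` of `k`), and `s` is the homomorphism from the Galois group of a number field `F` to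
`Γ` given by a closed point of the generic fibre of `U` (if `k = F` is a number field, `s` is the
identity).  Suppose:

(0) (as in `MP_8f1292_ag.MaximalFrobeniusTorus`) there are three primes `p ≠ ℓ`, unramified in `F`, such
that the fibre at `s` has good reduction at the places above `p`, with pure Frobenius polynomials in
`ℚ[X]`, and at ONE place `v₀` above one of these primes `p₀` there are `r` multiplicatively independent
Frobenius eigenvalues, where the rank of `𝔤` is at most `r`; if there are several places above `p₀` they
are independent (`IndependentPlaces`; nothing is to be supposed if `F = ℚ`, or if there is only one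
place above `p₀`).

(1) (a split Frobenius) for every `i` there is an element `γ` of `Γ` (a Frobenius element at a closed
point of `U`) whose characteristic polynomials have rational coefficients, with `r` multiplicatively
independent eigenvalues, such that its eigenvalues on the `i`-th summand are in `ℚ_ℓ`.

(2) (a Frobenius with conjugate eigenvalues) there is an element `γ` of `Γ` whose characteristic
polynomials `Q i` have rational coefficients, with `r` multiplicatively independent eigenvalues, such
that for each `i` the quotients of the roots of `Q i` are, up to roots of unity, products of quotients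
`a / b` of roots `a`, `b` of `Q i` which are conjugate over `ℚ_ℓ` (`QuotientsGenerated`).  This is so if
all roots of `Q i` are conjugate over `ℚ_ℓ` (`Q i` is a power of an irreducible polynomial over `ℚ_ℓ`).
It is also true if the motivic group of `M i` is simple up to its centre, its weights generate the
weight lattice `Λ`, and a Frobenius element of `ℚ_ℓ` permutes the eigenvalues like a Coxeter element `c`
permutes the weights, as `(1 - c) Λ` is the root lattice; so one can treat all representations of the
groups of type `E₈`, `F₄`, `G₂` (also those in which the weight zero occurs), the minuscule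
representations of `E₆` and `E₇` and the spin representations of the odd spin groups.

**Theorem.**  Then `V` is semisimple for all subgroups of finite index of `Γ`, and the Tate tensors are
exactly the tensors killed by `𝔤`: every tensor on `V` and its dual space (of any degree) which is fixed
by a subgroup of finite index of the Galois group is a combination of algebraic (motivated, ...)
classes.  So `Hom(N, N') ⊗ ℚ_ℓ → Hom_{G_k}(N_ℓ, N'_ℓ)` is surjective for all motives `N`, `N'` in the
tensor category generated by the `M i`, over `k` and over all finite extensions of `k`.

By the theorem of Chebotarev, given two places `v`, `v'` with multiplicatively `r` independent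
eigenvalues, such that some automorphism of the algebraic closure of `ℚ` fixes the eigenvalues at `v` and
permutes the eigenvalues of the `M i` at `v'` transitively (this is so if the splitting fields of the
Frobenius polynomials at `v` and `v'` are linearly disjoint and some element of the second Galois group
is transitive), the conditions (1) and (2) hold for a set of primes `ℓ` of positive density.

The proof.  Let `L` be the Lie algebra of the endomorphisms which kill all Tate tensors and preserve
the subspaces stable under open subgroups.  By (0) and the results of the library (`ℓ`-adic six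
exponentials theorem) `L` is reductive and it contains the tori `t` of all Frobenius elements in (0), (1),
(2), which are Cartan subalgebras of `𝔤`.  Let `t₂` be the torus of the element in (2).  (a) The
projection `P` of `V ⊗ ℂ` on the sum of the weight spaces for a class of weights of `t₂` modulo the group
generated by the roots of `L` is in the centre of the commutant of `L`.  (b) These projections are
defined over `ℚ_ℓ`: otherwise one finds an irreducible polynomial `μ` over `ℚ_ℓ` of degree at least two
and an endomorphism `z` in the centre of the commutant of `L` with `μ(z) = 0` on a subspace `W` over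
`ℚ_ℓ` stable under `L`; as the weight spaces of the torus in (1) are defined over `ℚ_ℓ`, all roots of
`μ` are eigenvalues of `z` on each of them, in particular for a highest weight; the sum of two
eigenvectors of highest weight for different roots generates a module in which the highest weight
space has dimension one, but this module is stable under `z`.  (c) So the class of an eigenvalue in (2)
contains its conjugates over `ℚ_ℓ`, and by the condition on the quotients all weights of a summand are in
one class.  Hence the class projections commute with `𝔤`, all roots of `𝔤` are sums of roots of `L`, and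
`L = 𝔤` as in `MP_b8862a_ag.AnyGroupDensityOne`.
-/

set_option autoImplicit false

namespace Pool.Agent.Results.MP_3703a7_ag.SplitFrobenius

open NumberField IsDedekindDomain Polynomial Module Pool.Agent.Y114.TF Pool.Agent.Y114.GF
  Pool.Agent.Y114.MU Pool.Agent.Y114.RM Pool.Agent.H204R3.GP

section roots

variable {k C : Type} [Field k] [Field C] [Algebra k C]

/-- `a` and `b` are roots of `Q` which are conjugate over `k` -/
def AreConjugateRoots (Q : k[X]) (a b : C) : Prop :=
  aeval a Q = 0 ∧ aeval b Q = 0 ∧ minpoly k a = minpoly k b

variable (C) in
/-- the group generated by the quotients of the roots of `Q` in `C` which are conjugate over `k` -/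
def conjugateQuotients (Q : k[X]) : Subgroup Cˣ :=
  Subgroup.closure {u : Cˣ | ∃ a b : C, AreConjugateRoots Q a b ∧ (u : C) * b = a}

variable (C) in
/-- for all roots `x`, `y` of `Q` in `C` the quotient `x / y` is the product of an element of the group
generated by the quotients of conjugate roots and of a root of unity -/
def QuotientsGeneratedIn (Q : k[X]) : Prop :=
  ∀ x y : C, aeval x Q = 0 → aeval y Q = 0 →
    ∃ m : ℕ, 0 < m ∧ ∃ u ∈ conjugateQuotients C Q, x ^ m = ((u : C) * y) ^ m

end roots

/-- the condition in (2), for conjugates over `ℚ_ℓ` -/
def QuotientsGenerated (ℓ : ℕ) [Fact ℓ.Prime] (Q : ℚ[X]) : Prop :=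
  QuotientsGeneratedIn (AlgebraicClosure ℚ_[ℓ]) (Q.map (algebraMap ℚ ℚ_[ℓ]))

/-- the element `γ` has the rational characteristic polynomials `Q i` on the summands, and there are
`r` multiplicatively independent numbers among their roots -/
def HasIndependentEigenvalues {Γ : Type} [Group Γ] {ι : Type} {n : ι → ℕ} {ℓ : ℕ} [Fact ℓ.Prime]
    (ρ : Reps Γ n ℓ) (r : ℕ) (γ : Γ) (Q : ι → ℚ[X]) : Prop :=
  (∀ i, HasPoly ρ i γ (Q i)) ∧ IndepRoots r (Set.range Q)

theorem result {F : Type} [Field F] [NumberField F] {Γ : Type} [Group Γ] [TopologicalSpace Γ]
    [IsTopologicalGroup Γ] [CompactSpace Γ] {ι : Type} [Fintype ι] [DecidableEq ι] {n : ι → ℕ}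
    {ℓ : ℕ} [Fact ℓ.Prime]
    -- the `ℓ`-adic realizations, and the specialization
    (ρ : Reps Γ n ℓ) (hρ : Conts ρ) (s : Gal(AlgebraicClosure F/F) →* Γ) (hs : Continuous s)
    (w : ι → ℤ)
    -- the Lie algebra of the motivic Galois group
    (𝔤 : EndSpace n ℓ) (h𝔤 : Motivic ρ 𝔤)
    -- (0) three primes of good reduction, and one Frobenius torus of maximal rank
    (P : HeightOneSpectrum (𝓞 F) → ι → ℚ[X]) (T : Set ℕ) (hT3 : 3 ≤ T.encard)
    (hT : ∀ p ∈ T, p.Prime ∧ p ≠ ℓ ∧ UnramifiedIn F p)
    (hP : ∀ p ∈ T, ∀ v, Above v p → ∀ i, GoodReduction (restrictTo ρ s) i (w i) v (P v i))
    (p₀ : ℕ) (hp₀ : p₀ ∈ T) (hind : IndependentPlaces P p₀)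
    (v₀ : HeightOneSpectrum (𝓞 F)) (hv₀ : Above v₀ p₀)
    (r : ℕ) (hr : IndepRoots r (Set.range (P v₀))) (hrank : RankLE 𝔤 r)
    -- (1) a split Frobenius
    (h1 : ∀ i, ∃ γ Q, HasIndependentEigenvalues ρ r γ Q ∧
      ((Q i).map (algebraMap ℚ ℚ_[ℓ])).Splits)
    -- (2) a Frobenius with conjugate eigenvalues
    (h2 : ∃ γ Q, HasIndependentEigenvalues ρ r γ Q ∧ ∀ i, QuotientsGenerated ℓ (Q i)) :
    Semisimple ρ ∧ TateTensorsOf ρ 𝔤 := by
  refine Pool.Agent.Q65.KL.main_two inputs inputs2 ρ hρ 𝔤 h𝔤 s hs P T hT3 hT
    (fun p hp v hv => goodPlace_of (restrictTo ρ s) (hP p hp v hv)) hp₀ hind hv₀ r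
    (independentRoots_range hr) hrank ?_ ?_
  · intro i
    obtain ⟨γ, Q, ⟨h3, h4⟩, h5⟩ := h1 i
    exact ⟨γ, Q, h3, independentRoots_range h4, h5⟩
  · obtain ⟨γ, Q, ⟨h3, h4⟩, h5⟩ := h2
    refine ⟨γ, Q, h3, independentRoots_range h4, fun i x y hx hy => ?_⟩
    obtain ⟨m, hm, u, hu, h6⟩ := h5 i x y (by rw [aeval_map_algebraMap]; exact hx)
      (by rw [aeval_map_algebraMap]; exact hy)
    refine ⟨m, hm, u, ?_, h6⟩
    refine Subgroup.closure_mono ?_ hu
    rintro u ⟨a, b, ⟨ha, hb, hab⟩, h7⟩
    rw [aeval_map_algebraMap] at ha hb
    exact ⟨a, b, ha, hb, hab, h7⟩

end Pool.Agent.Results.MP_3703a7_ag.SplitFrobenius
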