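import Pool.Agent.Q193.LT.Gal

/-!
# Tate classes over number fields and the hypersurfaces of tripartite hypergraphs

Let `F` be a number field, `ℓ` a prime number. Let `M` be the category of motives over `F` for motivated
cycles (André) or for absolute Hodge cycles (Deligne), a semisimple abelian category,
`ω : M ⥤ Rep(Gal(F̄/F))` its `ℓ`-adic realization, `N ↦ N(a)` the Tate twists, `one` the unit. The map
of question Q1, for motives of this category, is
`Hom_M(N', N) ⊗ ℚ_ℓ → Hom_Gal(ω N', ω N)`; it is injective, and by duality it is enough to consider
the case `N' = 1` and, for all Tate twists, the motives `N = h^i(Y)(a)` of smooth projective varieties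
`Y` (products of varieties for the motives `N'^∨ ⊗ N`). `TateAt D one ω N` says that the map is
surjective for `N' = 1` and all Tate twists `N(a)`: all Tate classes of `N(a)` are linear combinations
with coefficients in `ℚ_ℓ` of motivated (absolute Hodge) classes.

For a separated `F`-scheme `X` of finite type let `D.H i X` be the object of `M` given by the graded
object of the weight filtration of the cohomology with compact supports `H^i_c(X)`; for smooth projective
`X` it is the motive `h^i(X)`.

For a finite set `H` of triples `(i, j, l)` (a tripartite hypergraph) let `X_H` be the smooth affine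
cubic hypersurface `∑_{(i, j, l) ∈ H} x_i y_j z_l = 1` over `F`.

**Theorem.** (1) Let `F = ℚ`. The map of question Q1 is an isomorphism for `N' = 1` and all motives
`N = h^i(Y)(a)` of smooth projective varieties `Y` over `ℚ` if and only if it is an isomorphism for
`N' = 1` and the motives `N = Gr^W H^i_c(X_H)(a)`, for all finite sets `H` of triples. (A smooth
projective variety over any number field is also a smooth projective variety over `ℚ`, by restriction of
scalars; so `F = ℚ` is the general case. The hypersurfaces `X_H` form one explicit sequence, and no
coefficients are involved.)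

(2) Let `F` be any number field. For every `n` the map is an isomorphism for `N' = 1` and the motives
`N = h^i(Y)(a)` of all smooth projective varieties `Y` of dimension at most `n` over `F` if and only if
it is an isomorphism for `N' = 1` and the motives `N = Gr^W H^i_c(Z)(a)` of all smooth affine cubic
hypersurfaces `Z`, given by equations `T(x, y, z) = 1` for trilinear forms `T` over `F` such that one of
the three blocks of variables has at most `n + 2` variables.

(3) Unconditionally, the map is an isomorphism for `N' = 1` and the motives `Gr^W H^i_c(Z)(a)` of the
hypersurfaces `T(x, y, z) = 1` such that one of the three blocks of variables has at most three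
variables, while the other two blocks are arbitrary.
-/

set_option autoImplicit false

open CategoryTheory CategoryTheory.Limits AlgebraicGeometry Pool.Agent.Y116.UV Pool.Agent.Z125.UN
  Pool.Agent.Q193.LT

universe w v u

namespace Pool.Agent.Results.MP_3703a7_ag.TripartiteHypergraphs

/-- **Tate classes over number fields and tripartite hypergraphs.** See the explanations above. The
known cases that are used for the third part: points and smooth projective curves (all Tate classes on
them are linear combinations of divisor classes). `Frac F` says that `F = ℚ`. -/
theorem result {F : Type} [Field F] [NumberField F] {M : Type u}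
    [Category.{v} M] [Abelian M] {D : CompactData F M} {one : M} {ℓ : ℕ} [Fact ℓ.Prime]
    {ω : M ⥤ ModuleCat.{w} (GalAlg F ℓ)} (h : IsMotivic D ω)
    (point : ∀ i, TateAt D one ω (D.H i (aff F F)))
    (curves : ∀ Y : Sch F, SmoothProj Y → topologicalKrullDim Y.left ≤ (1 : ℕ) →
      ∀ i, TateAt D one ω (D.H i Y)) :
    (Frac F → ((∀ Y : Sch F, SmoothProj Y → ∀ i, TateAt D one ω (D.H i Y)) ↔
      ∀ (a b c : ℕ) (H : Finset (Fin a × Fin b × Fin c)), ∀ i,
        TateAt D one ω (D.H i (tripS F H)))) ∧
    (∀ n : ℕ, (∀ Y : Sch F, SmoothProj Y → topologicalKrullDim Y.left ≤ n →
        ∀ i, TateAt D one ω (D.H i Y)) ↔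
      ∀ (a b c : ℕ) (T : Fin a → Fin b → Fin c → F), (a ≤ n + 2 ∨ b ≤ n + 2 ∨ c ≤ n + 2) →
        ∀ i, TateAt D one ω (D.H i (hypS T))) ∧
    ∀ (a b c : ℕ) (T : Fin a → Fin b → Fin c → F), (a ≤ 3 ∨ b ≤ 3 ∨ c ≤ 3) →
      ∀ i, TateAt D one ω (D.H i (hypS T)) :=
  ⟨fun hF => proj_graph_iff hF h.compact h.generated h.tate point,
    fun n => proj_iff h.compact h.generated h.tate point n,
    (proj_iff h.compact h.generated h.tate point 1).mp curves⟩

end Pool.Agent.Results.MP_3703a7_ag.TripartiteHypergraphs
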